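import Pool.Agent.Lib.Helper20.D1.Final
import Pool.Agent.Lib.Helper20.D1.Iterate

/-!
# Completeness of `D^(1)(X)` does not imply pointwise regularity

There is a connected perfect compact plane set `X` such that `D^(1)(X)` is complete, but `X` is not
regular at one of its points.

Idea of the proof.  A *fake corridor* from `0` to `1` is a connected finite union of compact convex
sets, contained in a thin diamond around the segment, such that `|f 1 - f 0| <= A sup |f'|` for all
`f` in `D^(1)`, while every path from `0` to `1` has length at least `D`.  The segment has `A = D = 1`.
Given fake corridors with constants `A, D` and a small angle `θ`, `s = sin θ`, one builds new ones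
with constants `A + O(s^2)` and `D + s/2 - O(D s^2)`: zigzag lines of slope `θ`, with long thin
rectangles attached on one side, joined by small copies of the old corridors.  A path has to cross
the rectangles, which costs an extra `s/2` per unit of length; but by Cauchy's theorem on the
rectangles the effect on the averages of `f` over the zigzag lines telescopes along the zigzag, to
second order in `s`.  As the harmonic series diverges and the sum of its squares converges, one
gets fake corridors with bounded `A` and arbitrarily large `D`.  A chain of scaled copies which
converges to `0` is the desired set.
-/

open Set Filter Topology

namespace Pool.Agent.Results.MP_d30fbe_an.CompleteNotRegular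

open Pool.Agent.H20.D1

/-- There is a connected perfect compact plane set `X` such that `D^(1)(X)` with the norm
`|f|_X + |f'|_X` is complete, but `X` is not regular at some point `z` of `X`. -/
theorem result : ∃ (X : Set ℂ) (_ : CompactSpace X), IsConnected X ∧ Preperfect X ∧
    D1Complete X ∧ ∃ z ∈ X, ¬ RegularAt X z :=
  final PP_large

end Pool.Agent.Results.MP_d30fbe_an.CompleteNotRegular
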